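import Pool.Agent.Helper43.Fr.Goals

namespace Pool.Agent.Helper43.Fr.PkAPJ

open Finset

theorem dvd_choose_of_mod_lt {p n k : ℕ} [Fact p.Prime] (h : n % p < k % p) :
    p ∣ n.choose k := by
  have h1 := Choose.choose_modEq_choose_mod_mul_choose_div_nat (p := p) (n := n) (k := k)
  rw [Nat.choose_eq_zero_of_lt h, zero_mul] at h1
  exact (Nat.modEq_zero_iff_dvd).mp h1

theorem dvd_choose_mul {p a j : ℕ} [Fact p.Prime] (h : ¬ p ∣ j) : p ∣ (p * a).choose j := by
  apply dvd_choose_of_mod_lt
  rw [Nat.mul_mod_right]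
  exact Nat.pos_of_ne_zero fun h1 => h (Nat.dvd_of_mod_eq_zero h1)

theorem choose_step {p : ℕ} [Fact p.Prime] (a b : ℕ) :
    (((p * (a + 1)).choose (p * (b + 1)) : ℕ) : ZMod (p ^ 2)) =
      ((p * a).choose (p * (b + 1)) : ℕ) + ((p * a).choose (p * b) : ℕ) := by
  have hp : p.Prime := Fact.out
  have h1 : p * (a + 1) = p + p * a := by ring
  rw [h1, Nat.add_choose_eq]
  push_cast
  have hsub : ({(0, p * (b + 1)), (p, p * b)} : Finset (ℕ × ℕ)) ⊆
      antidiagonal (p * (b + 1)) := by
    intro x hx
    simp only [mem_insert, mem_singleton] at hx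
    rw [HasAntidiagonal.mem_antidiagonal]
    rcases hx with rfl | rfl
    · simp
    · simp only; ring
  rw [← sum_subset hsub]
  · rw [sum_pair]
    · simp
    · intro h
      have := congrArg Prod.fst h
      simp only at this
      exact hp.ne_zero this.symm
  · rintro ⟨i, j⟩ hij hn
    rw [HasAntidiagonal.mem_antidiagonal] at hij
    simp only [mem_insert, mem_singleton, not_or] at hn
    simp only at hij ⊢
    have hi0 : i ≠ 0 := by
      rintro rfl
      exact hn.1 (by simp only [Prod.mk.injEq, true_and]; omega)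
    have hip : i ≠ p := by
      rintro rfl
      exact hn.2 (by
        simp only [Prod.mk.injEq, true_and]
        have : i + j = i + i * b := by rw [hij]; ring
        omega)
    rcases lt_or_gt_of_ne hip with h | h
    · have h2 : p ∣ p.choose i := hp.dvd_choose_self hi0 h
      have h3 : ¬ p ∣ j := by
        intro hj
        have : p ∣ i := (Nat.dvd_add_left hj).mp (hij ▸ Dvd.intro _ rfl)
        exact absurd (Nat.le_of_dvd (Nat.pos_of_ne_zero hi0) this) (not_le.mpr h)
      have h4 : p ∣ (p * a).choose j := dvd_choose_mul h3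
      rw [← Nat.cast_mul]
      rw [ZMod.natCast_eq_zero_iff, pow_two]
      exact mul_dvd_mul h2 h4
    · rw [Nat.choose_eq_zero_of_lt h]
      simp

theorem choose_mul_mul {p : ℕ} [Fact p.Prime] (a b : ℕ) :
    (((p * a).choose (p * b) : ℕ) : ZMod (p ^ 2)) = (a.choose b : ℕ) := by
  have hp : p.Prime := Fact.out
  induction a generalizing b with
  | zero =>
    cases b with
    | zero => simp
    | succ b =>
      rw [Nat.choose_eq_zero_of_lt (n := 0) (Nat.succ_pos b), Nat.mul_zero,
        Nat.choose_eq_zero_of_lt (Nat.mul_pos hp.pos (Nat.succ_pos b))]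
  | succ a ih =>
    cases b with
    | zero => simp
    | succ b =>
      rw [choose_step, ih, ih, Nat.choose_succ_succ]
      push_cast
      ring

theorem franel_mul {p : ℕ} [Fact p.Prime] (j : ℕ) :
    ((franel (p * j) : ℕ) : ZMod (p ^ 2)) = (franel j : ℕ) := by
  have hp : p.Prime := Fact.out
  unfold franel
  push_cast
  have hsub : (range (j + 1)).image (fun i => p * i) ⊆ range (p * j + 1) := by
    intro x hx
    rw [mem_image] at hx
    obtain ⟨i, hi, rfl⟩ := hx
    rw [mem_range] at hi ⊢
    have : p * i ≤ p * j := Nat.mul_le_mul_left p (by omega)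
    omega
  rw [← sum_subset hsub]
  · rw [sum_image]
    · refine sum_congr rfl fun i _ => ?_
      rw [choose_mul_mul]
    · intro x _ y _ hxy
      exact Nat.eq_of_mul_eq_mul_left hp.pos hxy
  · intro k hk hn
    have h3 : ¬ p ∣ k := by
      rintro ⟨i, rfl⟩
      apply hn
      rw [mem_image]
      refine ⟨i, ?_, rfl⟩
      rw [mem_range] at hk ⊢
      have : p * i ≤ p * j := by omega
      have := Nat.le_of_mul_le_mul_left this hp.pos
      omega
    have h4 : p ∣ (p * j).choose k := dvd_choose_mul h3
    rw [← Nat.cast_pow, ZMod.natCast_eq_zero_iff]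
    exact (pow_dvd_pow_of_dvd h4 2).trans (pow_dvd_pow _ (by norm_num))

theorem apj : G_APJ := by
  intro p _ hp3
  have hp : p.Prime := Fact.out
  refine ⟨fun j => ?_, fun j => ?_, fun i h1 h2 => ?_⟩
  · have h : ((aa (p * j) : ℕ) : ZMod (p ^ 2)) = (aa j : ℕ) := by
      unfold aa
      push_cast
      rw [franel_mul]
      congr 1
      have : 2 * (p * j) = p * (2 * j) := by ring
      rw [this, choose_mul_mul]
    have h2 : (((aa (p * j) : ℤ) - (aa j : ℤ) : ℤ) : ZMod (p ^ 2)) = 0 := by
      push_cast
      rw [h, sub_self]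
    have h3 := (ZMod.intCast_zmod_eq_zero_iff_dvd _ _).mp h2
    exact_mod_cast h3
  · unfold aa
    apply Dvd.dvd.mul_right
    apply dvd_choose_of_mod_lt
    have e1 : 2 * (p * (j + 1) - 1) = (p - 2) + p * (2 * j + 1) := by
      have : p * (j + 1) = p * j + p := by ring
      have h4 : p * (2 * j + 1) = 2 * (p * j) + p := by ring
      omega
    have e2 : p * (j + 1) - 1 = (p - 1) + p * j := by
      have : p * (j + 1) = p * j + p := by ring
      omega
    rw [e1, Nat.add_mul_mod_self_left, e2, Nat.add_mul_mod_self_left, Nat.mod_eq_of_lt (by omega),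
      Nat.mod_eq_of_lt (by omega)]
    omega
  · unfold aa
    apply Dvd.dvd.mul_right
    apply dvd_choose_of_mod_lt
    have e1 : 2 * i = (2 * i - p) + p * 1 := by omega
    rw [e1, Nat.add_mul_mod_self_left, Nat.mod_eq_of_lt (by omega), Nat.mod_eq_of_lt h2]
    omega

end Pool.Agent.Helper43.Fr.PkAPJ
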