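import Pool.Agent.Helper43.Fr.Goals

/-!
# MUL: multiplicities of the roots of the truncated polynomial in characteristic `p`
-/

namespace Pool.Agent.Helper43.Fr.PkMUL

open Pool.Agent.Helper43.Fr
open Polynomial

noncomputable section

lemma thP_apply {R : Type*} [CommRing R] (f : R[X]) : thP f = X * derivative f := by
  simp [thP, Polynomial.derivative']

lemma map_F1 {R S : Type*} [CommRing R] [CommRing S] (φ : R →+* S) (p : ℕ) :
    (F1 R p).map φ = F1 S p := by
  simp [F1, Polynomial.map_sum]

lemma ode_K (hO : G_ODE1) (p : ℕ) [Fact p.Prime] (hp : 3 < p) (K : Type) [Field K] [CharP K p] :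
    (1 - 28 * X - 128 * X ^ 2 : K[X]) *
        (2 * F1 K p * (X * derivative (X * derivative (F1 K p))) - (X * derivative (F1 K p)) ^ 2)
      + (X * derivative (1 - 28 * X - 128 * X ^ 2 : K[X])) * F1 K p * (X * derivative (F1 K p))
      - 4 * (2 * X + 24 * X ^ 2) * (F1 K p) ^ 2 = 0 := by
  have h := congrArg (Polynomial.map (ZMod.castHom (dvd_refl p) K)) (hO p hp)
  simp only [thP_apply, DD] at h
  simp only [Polynomial.map_add, Polynomial.map_sub, Polynomial.map_mul, Polynomial.map_pow,
    Polynomial.map_X, Polynomial.map_zero, Polynomial.map_one, Polynomial.map_ofNat,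
    ← Polynomial.derivative_map, map_F1] at h
  exact h

lemma coeff_F1 {R : Type*} [CommRing R] (p n : ℕ) :
    (F1 R p).coeff n = if n < p then (aa n : R) else 0 := by
  simp [F1, Polynomial.coeff_monomial]

lemma aa_zero : aa 0 = 1 := by
  simp [aa, franel]

lemma natDegree_F1 (hA : G_APJ) (p : ℕ) [Fact p.Prime] (hp : 3 < p) (K : Type) [Field K]
    [CharP K p] : 2 * (F1 K p).natDegree ≤ p := by
  have h : (F1 K p).natDegree ≤ p / 2 := by
    rw [Polynomial.natDegree_le_iff_coeff_eq_zero]
    intro n hn
    rw [coeff_F1]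
    split_ifs with h1
    · have := (hA p hp).2.2 n (by omega) h1
      exact (CharP.cast_eq_zero_iff K p _).2 this
    · rfl
  omega

/-- key computation -/
lemma key {K : Type} [Field K] (r : K) (f g : K[X]) (s : ℕ) (hf : f = (X - C r) ^ (s + 1) * g)
    (h : (1 - 28 * X - 128 * X ^ 2 : K[X]) *
        (2 * f * (X * derivative (X * derivative f)) - (X * derivative f) ^ 2)
      + (X * derivative (1 - 28 * X - 128 * X ^ 2 : K[X])) * f * (X * derivative f)
      - 4 * (2 * X + 24 * X ^ 2) * f ^ 2 = 0) :
    ∃ u v : K[X], derivative f = (X - C r) ^ s * u ∧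
      (X - C r) * derivative (derivative f) = (X - C r) ^ s * v ∧
      u.eval r = ((s : K) + 1) * g.eval r ∧ v.eval r = s * u.eval r ∧
      (X - C r) * derivative u = v - (s : K[X]) * u ∧
      (1 - 28 * X - 128 * X ^ 2 : K[X]) *
        (2 * (X - C r) * X * g * u + 2 * X ^ 2 * g * v - X ^ 2 * u ^ 2)
      + X ^ 2 * derivative (1 - 28 * X - 128 * X ^ 2 : K[X]) * (X - C r) * g * u
      - 4 * (2 * X + 24 * X ^ 2) * (X - C r) ^ 2 * g ^ 2 = 0 := by
  set L : K[X] := X - C r with hL
  have hL0 : L ≠ 0 := X_sub_C_ne_zero r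
  have hdL : derivative L = 1 := by simp [hL]
  set u : K[X] := ((s : K[X]) + 1) * g + L * derivative g with hu
  have hf1 : derivative f = L ^ s * u := by
    rw [hf, derivative_mul, derivative_pow, hdL, hu]
    push_cast
    simp only [mul_one, map_add, map_natCast, map_one]
    ring
  set v : K[X] := (s : K[X]) * u + L * derivative u with hv
  have hf2 : L * derivative (derivative f) = L ^ s * v := by
    rw [hf1, derivative_mul, derivative_pow, hdL, hv]
    rcases Nat.eq_zero_or_pos s with h0 | h0
    · subst h0; simp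
    · obtain ⟨t, rfl⟩ : ∃ t, s = t + 1 := ⟨s - 1, by omega⟩
      push_cast
      simp only [Nat.add_sub_cancel, mul_one, map_add, map_natCast, map_one]
      ring
  refine ⟨u, v, hf1, hf2, ?_, ?_, ?_, ?_⟩
  · simp [hu, hL]
  · simp [hv, hL]
  · rw [hv]; ring
  · have h2 : derivative (X * derivative f) = derivative f + X * derivative (derivative f) := by
      rw [derivative_mul, derivative_X]; ring
    rw [h2] at h
    have h3 : L ^ (2 * s) * ((1 - 28 * X - 128 * X ^ 2 : K[X]) *
        (2 * L * X * g * u + 2 * X ^ 2 * g * v - X ^ 2 * u ^ 2)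
      + X ^ 2 * derivative (1 - 28 * X - 128 * X ^ 2 : K[X]) * L * g * u
      - 4 * (2 * X + 24 * X ^ 2) * L ^ 2 * g ^ 2) = 0 := by
      rw [← h]
      set D : K[X] := 1 - 28 * X - 128 * X ^ 2 with hD
      set D' : K[X] := derivative D with hD'
      set f' := derivative f with hf'
      set f'' := derivative f' with hf''
      have e1 : f * f'' = L ^ (2 * s) * g * v := by
        rw [hf]
        calc L ^ (s + 1) * g * f'' = L ^ s * g * (L * f'') := by ring
          _ = L ^ s * g * (L ^ s * v) := by rw [hf2]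
          _ = _ := by ring
      have e2 : f * f' = L ^ (2 * s) * L * g * u := by
        rw [hf1, hf]; ring
      have e3 : f' ^ 2 = L ^ (2 * s) * u ^ 2 := by
        rw [hf1]; ring
      have e4 : f ^ 2 = L ^ (2 * s) * L ^ 2 * g ^ 2 := by
        rw [hf]; ring
      linear_combination (-(2 * D * X ^ 2)) * e1 + (-(2 * D * X) - X ^ 2 * D') * e2
        + (D * X ^ 2) * e3 + (4 * (2 * X + 24 * X ^ 2)) * e4
    rcases mul_eq_zero.1 h3 with h4 | h4
    · exact absurd h4 (pow_ne_zero _ hL0)
    · exact h4

theorem mul : G_ODE1 → G_APJ → G_MUL := by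
  intro hO hA p _ hp K _ _ r hr
  classical
  have hpr : p.Prime := Fact.out
  set f := F1 K p with hf
  have h0 : f.coeff 0 = 1 := by
    rw [hf, coeff_F1, if_pos (by omega), aa_zero]; simp
  have hf0 : f ≠ 0 := by
    intro h; rw [h] at h0; simp at h0
  have hr0 : r ≠ 0 := by
    intro h
    rw [h, ← Polynomial.coeff_zero_eq_eval_zero, h0] at hr
    exact one_ne_zero hr
  have hdeg : 2 * f.natDegree ≤ p := natDegree_F1 hA p hp K
  have hroot : f.IsRoot r := hr
  have he1 : 0 < f.rootMultiplicity r := (Polynomial.rootMultiplicity_pos hf0).2 hroot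
  have he2 : f.rootMultiplicity r ≤ f.natDegree := by
    refine le_trans ?_ (Polynomial.card_roots' f)
    rw [← Polynomial.count_roots]
    exact Multiset.count_le_card r f.roots
  obtain ⟨s, hs⟩ : ∃ s, f.rootMultiplicity r = s + 1 := ⟨f.rootMultiplicity r - 1, by omega⟩
  obtain ⟨g, hg, hgr⟩ := Polynomial.exists_eq_pow_rootMultiplicity_mul_and_not_dvd f hf0 r
  rw [hs] at hg
  have hg0 : g.eval r ≠ 0 := by
    intro h
    exact hgr (Polynomial.dvd_iff_isRoot.2 h)
  have hsp : s + 1 < p := by omega
  have hcast : ∀ n : ℕ, n < p → (n : K) = 0 → n = 0 := by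
    intro n hn h
    have := (CharP.cast_eq_zero_iff K p n).1 h
    exact Nat.eq_zero_of_dvd_of_lt this hn
  have hs1 : ((s : K) + 1) ≠ 0 := by
    intro h
    have := hcast (s + 1) hsp (by push_cast; exact h)
    omega
  obtain ⟨u, v, hu, hv, hur, hvr, huv, hK⟩ := key r f g s hg (ode_K hO p hp K)
  have hu0 : u.eval r ≠ 0 := by rw [hur]; exact mul_ne_zero hs1 hg0
  constructor
  · intro hD
    have hE := congrArg (Polynomial.eval r) hK
    simp only [eval_add, eval_sub, eval_mul, eval_pow, eval_X, eval_C, eval_ofNat, eval_one,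
      eval_zero, sub_self, mul_zero, zero_mul, add_zero, zero_add, ne_eq, OfNat.ofNat_ne_zero,
      not_false_eq_true, zero_pow, sub_zero] at hE
    have hD' : (1 - 28 * r - 128 * r ^ 2) ≠ 0 := hD
    have h1 := (mul_eq_zero.1 hE).resolve_left hD'
    rw [hvr, hur] at h1
    have h2 : r ^ 2 * (g.eval r) ^ 2 * ((s : K) + 1) * ((s : K) - 1) = 0 := by
      linear_combination h1
    have h3 : (s : K) - 1 = 0 := by
      rcases mul_eq_zero.1 h2 with h | h
      · exact absurd h (mul_ne_zero (mul_ne_zero (pow_ne_zero _ hr0) (pow_ne_zero _ hg0)) hs1)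
      · exact h
    have h4 : s = 1 := by
      rcases Nat.eq_zero_or_pos s with hz | hz
      · rw [hz] at h3; simp at h3
      · have := hcast (s - 1) (by omega) (by rw [Nat.cast_sub hz]; simpa using h3)
        omega
    subst h4
    have hL0 : (X - C r : K[X]) ≠ 0 := X_sub_C_ne_zero r
    constructor
    · rw [hu]; simp
    · have h5 : derivative (derivative f) = v := by
        apply mul_left_cancel₀ hL0
        rw [hv]; simp
      rw [h5, hvr]
      simpa using hu0
  · intro hD
    have hD' : 1 - 28 * r - 128 * r ^ 2 = 0 := hD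
    -- factor D
    have hDf : (1 - 28 * X - 128 * X ^ 2 : K[X]) =
        (X - C r) * (-28 - 128 * (X + C r)) := by
      have h1 : (C (1 - 28 * r - 128 * r ^ 2) : K[X]) = 0 := by rw [hD']; simp
      have h2 : (1 - 28 * C r - 128 * C r ^ 2 : K[X]) = 0 := by
        rw [← h1]
        simp only [map_sub, map_mul, map_pow, map_one, map_ofNat]
      linear_combination h2
    have hdD : derivative (1 - 28 * X - 128 * X ^ 2 : K[X]) = -28 - 256 * X := by
      have e28 : (28 : K[X]) = C 28 := rfl
      have e128 : (128 : K[X]) = C 128 := rfl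
      have e256 : (256 : K[X]) = 128 * 2 := by norm_num
      have eC2 : (C 2 : K[X]) = 2 := rfl
      rw [e256, e28, e128]
      simp only [derivative_sub, derivative_one, derivative_mul, derivative_C, derivative_X,
        derivative_X_pow, zero_mul, zero_add, mul_one, zero_sub]
      norm_num [eC2]
      ring
    have hL0 : (X - C r : K[X]) ≠ 0 := X_sub_C_ne_zero r
    rw [hdD, hDf] at hK
    have hK2 : (X - C r) * ((-28 - 128 * (X + C r)) *
        (2 * (X - C r) * X * g * u + 2 * X ^ 2 * g * v - X ^ 2 * u ^ 2)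
      + X ^ 2 * (-28 - 256 * X) * g * u
      - 4 * (2 * X + 24 * X ^ 2) * (X - C r) * g ^ 2) = 0 := by
      rw [← hK]; ring
    have hK3 := (mul_eq_zero.1 hK2).resolve_left hL0
    have hE := congrArg (Polynomial.eval r) hK3
    have eneg : ∀ x : K, (-28 : K[X]).eval x = -28 := by intro x; simp
    simp only [eval_add, eval_sub, eval_mul, eval_pow, eval_X, eval_C, eval_ofNat, eval_one,
      eval_zero, sub_self, mul_zero, zero_mul, add_zero, zero_add, ne_eq, OfNat.ofNat_ne_zero,
      not_false_eq_true, zero_pow, sub_zero, eneg] at hE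
    -- D1(r) = -28 - 256 r ≠ 0
    have hD1 : (-28 - 256 * r : K) ≠ 0 := by
      intro h
      have h1296 : (1296 : K) = 0 := by
        linear_combination (-28 - 256 * r) * h + 512 * hD'
      have h2 : ((1296 : ℕ) : K) = 0 := by exact_mod_cast h1296
      have h3 := (CharP.cast_eq_zero_iff K p 1296).1 h2
      have h4 : p ∣ 6 ^ 4 := by norm_num; exact h3
      have h5 := hpr.dvd_of_dvd_pow h4
      have h6 : p ≤ 6 := Nat.le_of_dvd (by norm_num) h5
      interval_cases p
      · exact absurd hpr (by norm_num)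
      · exact absurd h5 (by norm_num)
      · exact absurd hpr (by norm_num)
    rw [hvr, hur] at hE
    have h2 : r ^ 2 * (g.eval r) ^ 2 * ((s : K) + 1) * (-28 - 256 * r) * (s : K) = 0 := by
      linear_combination hE
    have h3 : (s : K) = 0 := by
      rcases mul_eq_zero.1 h2 with h | h
      · exact absurd h (mul_ne_zero (mul_ne_zero (mul_ne_zero (pow_ne_zero _ hr0)
          (pow_ne_zero _ hg0)) hs1) hD1)
      · exact h
    have h4 : s = 0 := hcast s (by omega) h3
    subst h4
    rw [hu]
    simpa using hu0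

end

end Pool.Agent.Helper43.Fr.PkMUL
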